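import Pool.Agent.H38.Tre.Depth

namespace Pool.Agent.Results.MP_845cb7_nt.Lower

open H38Tre

theorem result : ∃ c : ℝ, 0 < c ∧ ∀ a : ℤ, 1 ≤ a → ¬ (3 : ℤ) ∣ a → ∀ k : ℕ,
    c * (133196 / 100000 : ℝ) ^ k ≤ (Set.ncard {n : ℤ | (1 ≤ n ∧ ¬ (3 : ℤ) ∣ n) ∧ T3^[k] n = a} : ℝ) :=
  lower_main (fun n => (1 ≤ n ∧ ¬ (3 : ℤ) ∣ n)) (fun a h h3 => ⟨h, by omega⟩)

end Pool.Agent.Results.MP_845cb7_nt.Lower
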